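import Mathlib

/-!
# MP_3f72ec_co: the tree stabbing number is not monotone

Let `S = {(0,0), (0,1), (0,2), (0,3), (1,1), (2,1)}` and let `S'` be `S` without `(0,1)`.  The tree
on `S` consisting of the path `(0,0), (0,1), (0,2), (0,3)` and the path `(0,1), (1,1), (2,1)` has
stabbing number at most `2`, because a line stabs at most one edge of each of the two paths.  But
every spanning tree of the five points of `S'` has stabbing number at least `3`: one of six lines
stabs three of its edges.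
-/

set_option autoImplicit false

namespace Pool.Agent.Results.MP_3f72ec_co.NotMonotone

/-- `l` is a straight line of the plane. -/
def IsLine (l : Set (ℝ × ℝ)) : Prop :=
  ∃ a b c : ℝ, (a ≠ 0 ∨ b ≠ 0) ∧ l = {p | a * p.1 + b * p.2 = c}

/-- The line `l` stabs the closed segment `pq`: their intersection is exactly one point, and this
point lies in the relative interior of the segment. -/
def Stabs (l : Set (ℝ × ℝ)) (p q : ℝ × ℝ) : Prop :=
  ∃ x, l ∩ segment ℝ p q = {x} ∧ x ∈ openSegment ℝ p q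

/-- The edges of the graph `G` (whose vertices are the points of `S`, and whose edges are drawn as
straight segments) that are stabbed by `l`. -/
def stabbed {S : Finset (ℝ × ℝ)} (G : SimpleGraph S) (l : Set (ℝ × ℝ)) : Set (Sym2 S) :=
  {e | ∃ u v : S, G.Adj u v ∧ e = s(u, v) ∧ Stabs l u v}

/-- The stabbing number of `G`: the maximum number of edges stabbed by a line. -/
noncomputable def stabNumber {S : Finset (ℝ × ℝ)} (G : SimpleGraph S) : ℕ :=
  sSup {k | ∃ l, IsLine l ∧ k = (stabbed G l).ncard}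

/-- `TREE-STAB(S)`: the minimum stabbing number of a tree with vertex set `S`. -/
noncomputable def treeStab (S : Finset (ℝ × ℝ)) : ℕ :=
  sInf {k | ∃ G : SimpleGraph S, G.IsTree ∧ k = stabNumber G}

/-! ### Segments and lines -/

lemma stabs_of_sides {a b c : ℝ} {p q : ℝ × ℝ} (hp : a * p.1 + b * p.2 < c)
    (hq : c < a * q.1 + b * q.2) : Stabs {z | a * z.1 + b * z.2 = c} p q := by
  set f : ℝ × ℝ → ℝ := fun z => a * z.1 + b * z.2 with hf
  have hd : 0 < f q - f p := by simp only [hf]; linarith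
  set t : ℝ := (c - f p) / (f q - f p) with ht
  have ht0 : 0 < t := by
    apply div_pos _ hd; simp only [hf]; linarith
  have ht1 : t < 1 := by
    rw [ht, div_lt_one hd]; simp only [hf]; linarith
  have hcomb : ∀ u v : ℝ, f (u • p + v • q) = u * f p + v * f q := by
    intro u v; simp only [hf, Prod.fst_add, Prod.snd_add, Prod.smul_fst, Prod.smul_snd, smul_eq_mul]
    ring
  have htc : (1 - t) * f p + t * f q = c := by
    have h1 : t * (f q - f p) = c - f p := by rw [ht]; field_simp
    linarith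
  refine ⟨(1 - t) • p + t • q, ?_, ⟨1 - t, t, by linarith, ht0, by ring, rfl⟩⟩
  ext z
  simp only [Set.mem_inter_iff, Set.mem_singleton_iff]
  constructor
  · rintro ⟨h1, u, v, hu, hv, huv, rfl⟩
    have h2 : f (u • p + v • q) = c := h1
    rw [hcomb] at h2
    have hu' : u = 1 - v := by linarith
    subst hu'
    have h3 : (v - t) * (f q - f p) = 0 := by linarith
    have h4 : v = t := by
      rcases mul_eq_zero.1 h3 with h | h
      · linarith
      · exact absurd h hd.ne'
    rw [h4]
  · rintro rfl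
    refine ⟨?_, 1 - t, t, by linarith, ht0.le, by ring, rfl⟩
    show f ((1 - t) • p + t • q) = c
    rw [hcomb, htc]

lemma stabs_symm {l : Set (ℝ × ℝ)} {p q : ℝ × ℝ} (h : Stabs l p q) : Stabs l q p := by
  obtain ⟨x, h1, h2⟩ := h
  exact ⟨x, by rwa [segment_symm], by rwa [openSegment_symm]⟩

/-- The value of the linear form at a stabbing point is strictly between the values at the ends. -/
lemma sides_of_stabs {a b c : ℝ} {p q : ℝ × ℝ} (hpq : p ≠ q)
    (h : Stabs {z | a * z.1 + b * z.2 = c} p q) :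
    (a * p.1 + b * p.2 < c ∧ c < a * q.1 + b * q.2) ∨
      (a * q.1 + b * q.2 < c ∧ c < a * p.1 + b * p.2) := by
  obtain ⟨x, h1, u, v, hu, hv, huv, hx⟩ := h
  have hxl : x ∈ {z : ℝ × ℝ | a * z.1 + b * z.2 = c} ∩ segment ℝ p q := by rw [h1]; rfl
  have hc : a * x.1 + b * x.2 = c := hxl.1
  have hc' : u * (a * p.1 + b * p.2) + v * (a * q.1 + b * q.2) = c := by
    rw [← hc, ← hx]
    simp only [Prod.fst_add, Prod.snd_add, Prod.smul_fst, Prod.smul_snd, smul_eq_mul]; ring
  have hu1 : u = 1 - v := by linarith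
  rcases lt_trichotomy (a * p.1 + b * p.2) (a * q.1 + b * q.2) with h | h | h
  · left
    subst hu1
    constructor <;> nlinarith
  · exfalso
    have hpc : a * p.1 + b * p.2 = c := by
      rw [← h, ← add_mul, huv, one_mul] at hc'; exact hc'
    have hp : p ∈ {z : ℝ × ℝ | a * z.1 + b * z.2 = c} ∩ segment ℝ p q :=
      ⟨hpc, left_mem_segment ℝ p q⟩
    have hqc : a * q.1 + b * q.2 = c := by rw [← h, hpc]
    have hq : q ∈ {z : ℝ × ℝ | a * z.1 + b * z.2 = c} ∩ segment ℝ p q :=
      ⟨hqc, right_mem_segment ℝ p q⟩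
    rw [h1, Set.mem_singleton_iff] at hp hq
    exact hpq (hp.trans hq.symm)
  · right
    subst hu1
    constructor <;> nlinarith

/-! ### The two sets -/

/-- the points of the larger set -/
def pt : Fin 6 → ℝ × ℝ := ![(0, 0), (0, 1), (0, 2), (0, 3), (1, 1), (2, 1)]

/-- the points of the smaller set -/
def qt : Fin 5 → ℝ × ℝ := ![(0, 0), (0, 2), (0, 3), (1, 1), (2, 1)]

lemma pt_inj : Function.Injective pt := by
  intro i j h
  fin_cases i <;> fin_cases j <;> simp [pt] at h ⊢

lemma qt_inj : Function.Injective qt := by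
  intro i j h
  fin_cases i <;> fin_cases j <;> simp [qt] at h ⊢

/-- the larger set -/
noncomputable def S : Finset (ℝ × ℝ) := Finset.univ.map ⟨pt, pt_inj⟩

/-- the smaller set -/
noncomputable def S' : Finset (ℝ × ℝ) := Finset.univ.map ⟨qt, qt_inj⟩

noncomputable def eS : Fin 6 ≃ S := Equiv.ofBijective
  (fun i => ⟨pt i, by unfold S; exact Finset.mem_map_of_mem ⟨pt, pt_inj⟩ (Finset.mem_univ i)⟩) (by
    constructor
    · intro i j h
      exact pt_inj (Subtype.ext_iff.1 h)
    · rintro ⟨x, hx⟩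
      unfold S at hx
      obtain ⟨i, _, rfl⟩ := Finset.mem_map.1 hx
      exact ⟨i, rfl⟩)

noncomputable def eS' : Fin 5 ≃ S' := Equiv.ofBijective
  (fun i => ⟨qt i, by unfold S'; exact Finset.mem_map_of_mem ⟨qt, qt_inj⟩ (Finset.mem_univ i)⟩) (by
    constructor
    · intro i j h
      exact qt_inj (Subtype.ext_iff.1 h)
    · rintro ⟨x, hx⟩
      unfold S' at hx
      obtain ⟨i, _, rfl⟩ := Finset.mem_map.1 hx
      exact ⟨i, rfl⟩)

lemma eS_val (i : Fin 6) : (eS i : ℝ × ℝ) = pt i := rfl

lemma eS'_val (i : Fin 5) : (eS' i : ℝ × ℝ) = qt i := rfl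

/-! ### The upper bound -/

/-- the tree on the larger set -/
def H : SimpleGraph (Fin 6) :=
  SimpleGraph.fromEdgeSet {s(0, 1), s(1, 2), s(2, 3), s(1, 4), s(4, 5)}

instance : DecidableRel H.Adj := fun i j => by
  unfold H; rw [SimpleGraph.fromEdgeSet_adj]; simp only [Set.mem_insert_iff, Set.mem_singleton_iff]
  infer_instance

lemma H_conn : H.Connected := by
  have h01 : H.Adj 0 1 := by decide
  have h12 : H.Adj 1 2 := by decide
  have h23 : H.Adj 2 3 := by decide
  have h14 : H.Adj 1 4 := by decide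
  have h45 : H.Adj 4 5 := by decide
  have key : ∀ i, H.Reachable 1 i := by
    intro i
    fin_cases i
    · exact h01.symm.reachable
    · exact SimpleGraph.Reachable.refl _
    · exact h12.reachable
    · exact h12.reachable.trans h23.reachable
    · exact h14.reachable
    · exact h14.reachable.trans h45.reachable
  exact ⟨fun i j => (key i).symm.trans (key j)⟩

lemma H_tree : H.IsTree := by
  rw [SimpleGraph.isTree_iff_connected_and_card]
  refine ⟨H_conn, ?_⟩
  rw [Nat.card_eq_fintype_card, Nat.card_eq_fintype_card]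
  decide

/-- the drawn tree -/
noncomputable def G : SimpleGraph S := H.map eS.toEmbedding

lemma G_tree : G.IsTree := (SimpleGraph.Iso.map eS H).isTree_iff.1 H_tree

/-- the edges of the tree -/
def ed : Fin 5 → Fin 6 × Fin 6 := ![(0, 1), (1, 2), (2, 3), (1, 4), (4, 5)]

lemma H_adj : ∀ i j : Fin 6, H.Adj i j → ∃ k, (i, j) = ed k ∨ (j, i) = ed k := by decide

lemma five (p0 p1 p2 p3 p4 : Prop) [Decidable p0] [Decidable p1] [Decidable p2] [Decidable p3]
    [Decidable p4] (x1 : ¬ (p0 ∧ p1)) (x2 : ¬ (p0 ∧ p2)) (x3 : ¬ (p1 ∧ p2)) (x4 : ¬ (p3 ∧ p4)) :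
    (if p0 then 1 else 0) + (if p1 then 1 else 0) + (if p2 then 1 else 0) +
      (if p3 then 1 else 0) + (if p4 then 1 else 0) ≤ 2 := by
  by_cases q0 : p0 <;> by_cases q1 : p1 <;> by_cases q2 : p2 <;> by_cases q3 : p3 <;>
    by_cases q4 : p4 <;> simp_all

open Classical in
/-- A line stabs at most one of the three vertical edges and at most one of the two horizontal
edges. -/
lemma stabbed_G {l : Set (ℝ × ℝ)} (hl : IsLine l) : (stabbed G l).ncard ≤ 2 := by
  obtain ⟨a, b, c, -, rfl⟩ := hl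
  set l : Set (ℝ × ℝ) := {z | a * z.1 + b * z.2 = c} with hl
  have key : ∀ i j : Fin 6, i ≠ j → Stabs l (pt i) (pt j) →
      (a * (pt i).1 + b * (pt i).2 < c ∧ c < a * (pt j).1 + b * (pt j).2) ∨
      (a * (pt j).1 + b * (pt j).2 < c ∧ c < a * (pt i).1 + b * (pt i).2) :=
    fun i j hij h => sides_of_stabs (fun e => hij (pt_inj e)) h
  have h01 := key 0 1 (by decide)
  have h12 := key 1 2 (by decide)
  have h23 := key 2 3 (by decide)
  have h14 := key 1 4 (by decide)
  have h45 := key 4 5 (by decide)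
  simp only [pt, Matrix.cons_val_zero, Matrix.cons_val_one, Matrix.cons_val] at h01 h12 h23 h14 h45
  set K : Finset (Fin 5) := Finset.univ.filter (fun k => Stabs l (pt (ed k).1) (pt (ed k).2)) with hK
  have hsub : stabbed G l ⊆ (K.image (fun k => s(eS (ed k).1, eS (ed k).2)) : Finset (Sym2 S)) := by
    rintro e ⟨u, v, huv, rfl, hst⟩
    obtain ⟨-, i, j, hij, rfl, rfl⟩ := huv
    obtain ⟨k, hk | hk⟩ := H_adj i j hij
    · rw [Finset.coe_image]
      have e1 : i = (ed k).1 := congrArg Prod.fst hk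
      have e2 : j = (ed k).2 := congrArg Prod.snd hk
      refine ⟨k, ?_, ?_⟩
      · rw [hK, Finset.mem_coe, Finset.mem_filter]
        refine ⟨Finset.mem_univ _, ?_⟩
        rw [← e1, ← e2]
        exact hst
      · show s(eS (ed k).1, eS (ed k).2) = s(eS i, eS j)
        rw [← e1, ← e2]
    · rw [Finset.coe_image]
      have e1 : j = (ed k).1 := congrArg Prod.fst hk
      have e2 : i = (ed k).2 := congrArg Prod.snd hk
      refine ⟨k, ?_, ?_⟩
      · rw [hK, Finset.mem_coe, Finset.mem_filter]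
        refine ⟨Finset.mem_univ _, ?_⟩
        rw [← e1, ← e2]
        exact stabs_symm hst
      · show s(eS (ed k).1, eS (ed k).2) = s(eS i, eS j)
        rw [← e1, ← e2]
        exact Sym2.eq_swap
  have hcard : K.card ≤ 2 := by
    rw [hK, Finset.card_filter, Fin.sum_univ_five]
    simp only [ed, pt, Matrix.cons_val_zero, Matrix.cons_val_one, Matrix.cons_val]
    have x1 : ¬ (Stabs l (0, 0) (0, 1) ∧ Stabs l (0, 1) (0, 2)) := by
      rintro ⟨g, g'⟩
      rcases h01 g with h | h <;> rcases h12 g' with h' | h' <;> linarith [h.1, h.2, h'.1, h'.2]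
    have x2 : ¬ (Stabs l (0, 0) (0, 1) ∧ Stabs l (0, 2) (0, 3)) := by
      rintro ⟨g, g'⟩
      rcases h01 g with h | h <;> rcases h23 g' with h' | h' <;> linarith [h.1, h.2, h'.1, h'.2]
    have x3 : ¬ (Stabs l (0, 1) (0, 2) ∧ Stabs l (0, 2) (0, 3)) := by
      rintro ⟨g, g'⟩
      rcases h12 g with h | h <;> rcases h23 g' with h' | h' <;> linarith [h.1, h.2, h'.1, h'.2]
    have x4 : ¬ (Stabs l (0, 1) (1, 1) ∧ Stabs l (1, 1) (2, 1)) := by
      rintro ⟨g, g'⟩
      rcases h14 g with h | h <;> rcases h45 g' with h' | h' <;> linarith [h.1, h.2, h'.1, h'.2]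
    exact five _ _ _ _ _ x1 x2 x3 x4
  calc (stabbed G l).ncard ≤ ((K.image (fun k => s(eS (ed k).1, eS (ed k).2)) :
        Finset (Sym2 S)) : Set (Sym2 S)).ncard := Set.ncard_le_ncard hsub (Finset.finite_toSet _)
    _ ≤ K.card := by rw [Set.ncard_coe_finset]; exact Finset.card_image_le
    _ ≤ 2 := hcard

lemma treeStab_S : treeStab S ≤ 2 := by
  have h1 : treeStab S ≤ stabNumber G := Nat.sInf_le ⟨G, G_tree, rfl⟩
  refine h1.trans ?_
  apply csSup_le'
  rintro k ⟨l, hl, rfl⟩
  exact stabbed_G hl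

/-! ### The lower bound -/

/-- the number of adjacent pairs among six -/
def cnt (a b c d e f : Bool) : ℕ := a.toNat + b.toNat + c.toNat + d.toNat + e.toNat + f.toNat

/-- implication -/
def im (a b : Bool) : Bool := !a || b

/-- The set of the points `i` with `t i = true` is nonempty, does not contain the point `0`, and no
adjacent pair has exactly one point in it. -/
def cut (x01 x02 x03 x04 x12 x13 x14 x23 x24 x34 t1 t2 t3 t4 : Bool) : Bool :=
  (t1 || t2 || t3 || t4) && im x01 (!t1) && im x02 (!t2) && im x03 (!t3) && im x04 (!t4) &&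
    im x12 (t1 == t2) && im x13 (t1 == t3) && im x14 (t1 == t4) && im x23 (t2 == t3) &&
    im x24 (t2 == t4) && im x34 (t3 == t4)

/-- Combinatorial core: if every one of the six lines separates at most two adjacent pairs of the
five points, then the graph is disconnected. -/
lemma comb : ∀ x01 x02 x03 x04 x12 x13 x14 x23 x24 x34 : Bool,
    (decide (cnt x02 x04 x12 x14 x23 x34 ≤ 2) && decide (cnt x03 x04 x13 x14 x23 x24 ≤ 2) &&
    decide (cnt x01 x02 x03 x14 x24 x34 ≤ 2) && decide (cnt x02 x03 x04 x12 x13 x14 ≤ 2) &&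
    decide (cnt x01 x02 x13 x14 x23 x24 ≤ 2) && decide (cnt x01 x02 x04 x13 x23 x34 ≤ 2)) = true →
    ∃ t1 t2 t3 t4 : Bool, cut x01 x02 x03 x04 x12 x13 x14 x23 x24 x34 t1 t2 t3 t4 = true := by
  decide +kernel

/-- the linear forms of the six lines -/
def ln : Fin 6 → ℝ × ℝ × ℝ := ![(2, 2, 5), (2, 0, 1), (2, -4, -1), (4, 2, 5), (1, -1, -1), (2, 4, 7)]

lemma ln_isLine (k : Fin 6) :
    IsLine {z : ℝ × ℝ | (ln k).1 * z.1 + (ln k).2.1 * z.2 = (ln k).2.2} := by
  refine ⟨_, _, _, ?_, rfl⟩
  left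
  fin_cases k <;> simp [ln]

lemma stabNumber_bdd {T : Finset (ℝ × ℝ)} (G : SimpleGraph T) :
    BddAbove {k | ∃ l, IsLine l ∧ k = (stabbed G l).ncard} := by
  refine ⟨(Set.univ : Set (Sym2 T)).ncard, ?_⟩
  rintro k ⟨l, _, rfl⟩
  exact Set.ncard_le_ncard (Set.subset_univ _) (Set.toFinite _)

/-- The pairs `p` of a finite set that are adjacent and stabbed are counted by the stabbing
number. -/
lemma card_le_stabNumber (G : SimpleGraph S') {l : Set (ℝ × ℝ)} (hl : IsLine l)
    (K : Finset (Fin 5 × Fin 5)) (hlt : ∀ p ∈ K, p.1 < p.2)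
    (hadj : ∀ p ∈ K, G.Adj (eS' p.1) (eS' p.2)) (hst : ∀ p ∈ K, Stabs l (qt p.1) (qt p.2)) :
    K.card ≤ stabNumber G := by
  classical
  have h1 : K.card = (K.image (fun p => s(eS' p.1, eS' p.2))).card := by
    rw [Finset.card_image_of_injOn]
    intro p hp q hq hpq
    have h2 := hlt p hp
    have h3 := hlt q hq
    rcases Sym2.eq_iff.1 hpq with ⟨g1, g2⟩ | ⟨g1, g2⟩
    · exact Prod.ext (eS'.injective g1) (eS'.injective g2)
    · exfalso
      have g1' := eS'.injective g1
      have g2' := eS'.injective g2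
      rw [g1', g2'] at h2
      exact absurd h2 (not_lt.2 h3.le)
  rw [h1, ← Set.ncard_coe_finset]
  refine (Set.ncard_le_ncard ?_ (Set.toFinite _)).trans
    (le_csSup (stabNumber_bdd G) ⟨l, hl, rfl⟩)
  intro e he
  rw [Finset.coe_image] at he
  obtain ⟨p, hp, rfl⟩ := he
  exact ⟨_, _, hadj p hp, rfl, hst p hp⟩

lemma same_side {V : Type*} {G : SimpleGraph V} (hG : G.Connected) (t : V → Bool)
    (h : ∀ u v, G.Adj u v → t u = t v) (u v : V) : t u = t v := by
  obtain ⟨w⟩ := hG.preconnected u v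
  induction w with
  | nil => rfl
  | cons hadj _ ih => exact (h _ _ hadj).trans ih

/-- which of the five points are on the positive side of the six lines -/
def sd : Fin 6 → Fin 5 → Bool :=
  ![![false, false, true, false, true], ![false, false, false, true, true],
    ![true, false, false, false, true], ![false, false, true, true, true],
    ![true, false, false, true, true], ![false, true, true, false, true]]

lemma sd_pos (k : Fin 6) (i : Fin 5) (h : sd k i = true) :
    (ln k).2.2 < (ln k).1 * (qt i).1 + (ln k).2.1 * (qt i).2 := by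
  fin_cases k <;> fin_cases i <;> first | exact absurd h (by decide) | norm_num [ln, qt]

lemma sd_neg (k : Fin 6) (i : Fin 5) (h : sd k i = false) :
    (ln k).1 * (qt i).1 + (ln k).2.1 * (qt i).2 < (ln k).2.2 := by
  fin_cases k <;> fin_cases i <;> first | exact absurd h (by decide) | norm_num [ln, qt]

/-- the six pairs of points separated by each of the six lines -/
def pr : Fin 6 → Fin 6 → Fin 5 × Fin 5 :=
  ![![(0, 2), (0, 4), (1, 2), (1, 4), (2, 3), (3, 4)],
    ![(0, 3), (0, 4), (1, 3), (1, 4), (2, 3), (2, 4)],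
    ![(0, 1), (0, 2), (0, 3), (1, 4), (2, 4), (3, 4)],
    ![(0, 2), (0, 3), (0, 4), (1, 2), (1, 3), (1, 4)],
    ![(0, 1), (0, 2), (1, 3), (1, 4), (2, 3), (2, 4)],
    ![(0, 1), (0, 2), (0, 4), (1, 3), (2, 3), (3, 4)]]

lemma pr_lt : ∀ k m, (pr k m).1 < (pr k m).2 := by decide

lemma pr_inj : ∀ k m m', pr k m = pr k m' → m = m' := by decide

lemma pr_sep : ∀ k m, sd k (pr k m).1 ≠ sd k (pr k m).2 := by decide

lemma pr_stabs (k m : Fin 6) :
    Stabs {z : ℝ × ℝ | (ln k).1 * z.1 + (ln k).2.1 * z.2 = (ln k).2.2}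
      (qt (pr k m).1) (qt (pr k m).2) := by
  have h := pr_sep k m
  cases h1 : sd k (pr k m).1 <;> cases h2 : sd k (pr k m).2
  · rw [h1, h2] at h; exact absurd rfl h
  · exact stabs_of_sides (sd_neg k _ h1) (sd_pos k _ h2)
  · exact stabs_symm (stabs_of_sides (sd_neg k _ h2) (sd_pos k _ h1))
  · rw [h1, h2] at h; exact absurd rfl h

open Classical in
lemma lower (G : SimpleGraph S') (hG : G.IsTree) : 3 ≤ stabNumber G := by
  by_contra hcon
  push Not at hcon
  have hle : stabNumber G ≤ 2 := by omega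
  have hk : ∀ k : Fin 6, ∑ m : Fin 6,
      (decide (G.Adj (eS' (pr k m).1) (eS' (pr k m).2))).toNat ≤ 2 := by
    intro k
    have h1 := card_le_stabNumber G (ln_isLine k)
      ((Finset.univ.filter (fun m => G.Adj (eS' (pr k m).1) (eS' (pr k m).2))).image (pr k))
      (by
        intro p hp
        obtain ⟨m, _, rfl⟩ := Finset.mem_image.1 hp
        exact pr_lt k m)
      (by
        intro p hp
        obtain ⟨m, hm, rfl⟩ := Finset.mem_image.1 hp
        exact (Finset.mem_filter.1 hm).2)
      (by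
        intro p hp
        obtain ⟨m, _, rfl⟩ := Finset.mem_image.1 hp
        exact pr_stabs k m)
    rw [Finset.card_image_of_injective _ (fun m m' h => pr_inj k m m' h),
      Finset.card_filter] at h1
    refine le_trans (le_of_eq ?_) (h1.trans hle)
    apply Finset.sum_congr rfl
    intro m _
    by_cases h : G.Adj (eS' (pr k m).1) (eS' (pr k m).2) <;> simp [h]
  have h0 := hk 0
  have h1 := hk 1
  have h2 := hk 2
  have h3 := hk 3
  have h4 := hk 4
  have h5 := hk 5
  rw [Fin.sum_univ_six] at h0 h1 h2 h3 h4 h5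
  simp only [pr, Matrix.cons_val_zero, Matrix.cons_val_one, Matrix.cons_val] at h0 h1 h2 h3 h4 h5
  obtain ⟨t1, t2, t3, t4, hc⟩ := comb (decide (G.Adj (eS' 0) (eS' 1)))
    (decide (G.Adj (eS' 0) (eS' 2))) (decide (G.Adj (eS' 0) (eS' 3)))
    (decide (G.Adj (eS' 0) (eS' 4))) (decide (G.Adj (eS' 1) (eS' 2)))
    (decide (G.Adj (eS' 1) (eS' 3))) (decide (G.Adj (eS' 1) (eS' 4)))
    (decide (G.Adj (eS' 2) (eS' 3))) (decide (G.Adj (eS' 2) (eS' 4)))
    (decide (G.Adj (eS' 3) (eS' 4))) (by
      simp only [cnt, Bool.and_eq_true]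
      exact ⟨⟨⟨⟨⟨decide_eq_true h0, decide_eq_true h1⟩, decide_eq_true h2⟩, decide_eq_true h3⟩,
        decide_eq_true h4⟩, decide_eq_true h5⟩)
  set t : Fin 5 → Bool := ![false, t1, t2, t3, t4] with ht
  simp only [cut, im, Bool.and_eq_true, Bool.or_eq_true, Bool.not_eq_true', decide_eq_false_iff_not,
    beq_iff_eq] at hc
  obtain ⟨⟨⟨⟨⟨⟨⟨⟨⟨⟨hc0, c01⟩, c02⟩, c03⟩, c04⟩, c12⟩, c13⟩, c14⟩, c23⟩, c24⟩, c34⟩ := hc
  have hsame : ∀ i j : Fin 5, i < j → G.Adj (eS' i) (eS' j) → t i = t j := by
    intro i j hij hadj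
    fin_cases i <;> fin_cases j <;> first | exact absurd hij (by decide) | skip
    all_goals simp only [ht, Matrix.cons_val_zero, Matrix.cons_val_one, Matrix.cons_val,
      Fin.reduceFinMk, Fin.mk_zero, Fin.mk_one, Fin.isValue] at hadj ⊢
    all_goals simp_all
  have hall : ∀ u v, G.Adj u v → t (eS'.symm u) = t (eS'.symm v) := by
    intro u v huv
    obtain ⟨i, rfl⟩ := eS'.surjective u
    obtain ⟨j, rfl⟩ := eS'.surjective v
    rw [Equiv.symm_apply_apply, Equiv.symm_apply_apply]
    rcases lt_trichotomy i j with h | h | h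
    · exact hsame i j h huv
    · rw [h]
    · exact (hsame j i h huv.symm).symm
  have hconst : ∀ i, t i = t 0 := by
    intro i
    have := same_side hG.1 (fun u => t (eS'.symm u)) hall (eS' i) (eS' 0)
    simpa using this
  have e1 := hconst 1
  have e2 := hconst 2
  have e3 := hconst 3
  have e4 := hconst 4
  simp only [ht, Matrix.cons_val_zero, Matrix.cons_val_one, Matrix.cons_val] at e1 e2 e3 e4
  simp [e1, e2, e3, e4] at hc0

lemma treeStab_S' : 3 ≤ treeStab S' := by
  unfold treeStab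
  apply le_csInf
  · haveI : Nonempty S' := ⟨eS' 0⟩
    obtain ⟨T, -, hT⟩ := (SimpleGraph.connected_top (V := S')).exists_isTree_le
    exact ⟨_, T, hT, rfl⟩
  · rintro k ⟨G, hG, rfl⟩
    exact lower G hG

/-- **`TREE-STAB` is not monotone.** There are nonempty finite sets of points `S' ⊆ S` of the plane
with `TREE-STAB(S') > TREE-STAB(S)`. (Here `S` has six points and `S'` is obtained from `S` by
deleting one point.) -/
theorem result : ∃ S' S : Finset (ℝ × ℝ), S'.Nonempty ∧ S' ⊆ S ∧ treeStab S < treeStab S' := by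
  refine ⟨NotMonotone.S', NotMonotone.S, ?_, ?_, lt_of_le_of_lt treeStab_S
    (lt_of_lt_of_le (by norm_num) treeStab_S')⟩
  · exact ⟨_, (eS' 0).2⟩
  · intro x hx
    unfold NotMonotone.S' at hx
    obtain ⟨i, _, rfl⟩ := Finset.mem_map.1 hx
    have h : ∀ j : Fin 6, pt j ∈ NotMonotone.S := fun j => (eS j).2
    show qt i ∈ NotMonotone.S
    fin_cases i
    · exact h 0
    · exact h 2
    · exact h 3
    · exact h 4
    · exact h 5

end Pool.Agent.Results.MP_3f72ec_co.NotMonotone
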